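import Pool.Agent.helper33.SP.SpecC1S

set_option autoImplicit false

namespace TP

open DP MeasureTheory

theorem UJ1_coin (a : Bool) : (PMF.uniformOfFintype Bool).toMeasure {a} = 2⁻¹ := by
  rw [PMF.toMeasure_apply_singleton _ _ (measurableSet_singleton a)]
  simp

theorem UJ1_meas {F : Set (V → Bool)} {L : Finset V} (h : DP.Dep F (L : Set V)) :
    MeasurableSet F := by
  have e : F = (fun (b : V → Bool) (v : L) => b v) ⁻¹' {g | ∃ b ∈ F, ∀ v : L, b v = g v} := by
    ext b
    constructor
    · intro hb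
      exact ⟨b, hb, fun _ => rfl⟩
    · rintro ⟨b', hb', h'⟩
      refine (h b' b fun v hv => ?_).1 hb'
      exact h' ⟨v, hv⟩
  rw [e]
  apply MeasurableSet.preimage
  · exact (Set.toFinite _).measurableSet
  · exact measurable_pi_lambda _ fun v => measurable_pi_apply _

theorem UJ1_P1 : IsProbabilityMeasure P1 := by
  unfold P1
  infer_instance

/-- probability of a cylinder -/
theorem UJ1_cyl (Λ : Finset V) (b : V → Bool) :
    P1.real {b' | ∀ v ∈ Λ, b' v = b v} = (1 / 2) ^ Λ.card := by
  have h1 : {b' : V → Bool | ∀ v ∈ Λ, b' v = b v} = Set.pi (Λ : Set V) (fun v => {b v}) := by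
    ext b'
    simp [Set.mem_pi]
  unfold P1 Measure.real
  rw [h1, Measure.infinitePi_pi _ (fun v _ => measurableSet_singleton (b v))]
  simp only [UJ1_coin, Finset.prod_const]
  rw [ENNReal.toReal_pow, ENNReal.toReal_inv]
  norm_num

theorem UJ1_sg_meas (v : V) : Measurable fun b : V → Bool => sg (b v) :=
  (measurable_of_finite sg).comp (measurable_pi_apply v)

theorem UJ1_sg_abs (k : Bool) : |sg k| = 1 := by
  cases k <;> simp [sg]

theorem UJ1_chr_meas (T : Finset V) : Measurable fun b : V → Bool => chr T b := by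
  unfold chr
  exact Finset.measurable_prod _ fun v _ => UJ1_sg_meas v

theorem UJ1_chr_abs (T : Finset V) (b : V → Bool) : |chr T b| = 1 := by
  unfold chr
  rw [Finset.abs_prod]
  exact Finset.prod_eq_one fun v _ => UJ1_sg_abs _

theorem UJ1_pmf_meas {F : Set (V → Bool)} (h : MeasurableSet F) : Measurable (pmf F) := by
  have : Measurable fun b : V → Bool => 2 * F.indicator (1 : (V → Bool) → ℝ) b - 1 :=
    ((measurable_one.indicator h).const_mul 2).sub_const 1
  exact this

theorem UJ1_pmf_abs (F : Set (V → Bool)) (b : V → Bool) : |pmf F b| ≤ 1 := by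
  unfold pmf
  by_cases h : b ∈ F
  · rw [Set.indicator_of_mem h]
    norm_num
  · rw [Set.indicator_of_notMem h]
    norm_num

theorem UJ1_kernel (Λ : Finset V) (b b' : V → Bool) :
    (∏ v ∈ Λ, (1 + sg (b' v) * sg (b v))) =
      ({b' | ∀ v ∈ Λ, b' v = b v} : Set (V → Bool)).indicator (fun _ => (2 : ℝ) ^ Λ.card) b' := by
  by_cases h : ∀ v ∈ Λ, b' v = b v
  · rw [Set.indicator_of_mem (by exact h), ← Finset.prod_const]
    refine Finset.prod_congr rfl fun v hv => ?_
    rw [h v hv]
    cases b v <;> simp [sg] <;> norm_num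
  · rw [Set.indicator_of_notMem (by exact h)]
    push Not at h
    obtain ⟨v, hv, hne⟩ := h
    refine Finset.prod_eq_zero hv ?_
    revert hne
    cases b v <;> cases b' v <;> simp [sg]

/-- the module UJ1 -/
theorem UJ1 : UJ1_stmt := by
  intro F Λ hF b
  have := UJ1_P1
  have hFm : MeasurableSet F := UJ1_meas hF
  have hint : ∀ T ∈ Λ.powerset, Integrable (fun b' => pmf F b' * chr T b' * chr T b) P1 := by
    intro T _
    refine Integrable.of_bound (C := 1)
      (((UJ1_pmf_meas hFm).mul (UJ1_chr_meas T)).mul_const _).aestronglyMeasurable ?_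
    refine Filter.Eventually.of_forall fun b' => ?_
    rw [Real.norm_eq_abs, abs_mul, abs_mul, UJ1_chr_abs, UJ1_chr_abs, mul_one, mul_one]
    exact UJ1_pmf_abs F b'
  have h1 : ∑ T ∈ Λ.powerset, fh F T * chr T b =
      ∫ b', ∑ T ∈ Λ.powerset, pmf F b' * chr T b' * chr T b ∂P1 := by
    rw [integral_finsetSum _ hint]
    refine Finset.sum_congr rfl fun T _ => ?_
    rw [integral_mul_const]
    rfl
  have h2 : ∀ b' : V → Bool, ∑ T ∈ Λ.powerset, pmf F b' * chr T b' * chr T b =
      ({b' | ∀ v ∈ Λ, b' v = b v} : Set (V → Bool)).indicator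
        (fun _ => (2 : ℝ) ^ Λ.card * pmf F b) b' := by
    intro b'
    have h3 : ∑ T ∈ Λ.powerset, pmf F b' * chr T b' * chr T b =
        pmf F b' * ∏ v ∈ Λ, (1 + sg (b' v) * sg (b v)) := by
      rw [Finset.prod_one_add, Finset.mul_sum]
      refine Finset.sum_congr rfl fun T _ => ?_
      unfold chr
      rw [Finset.prod_mul_distrib, mul_assoc]
    rw [h3, UJ1_kernel]
    by_cases h : ∀ v ∈ Λ, b' v = b v
    · rw [Set.indicator_of_mem (by exact h), Set.indicator_of_mem (by exact h)]
      have h4 : pmf F b' = pmf F b := by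
        have h5 := hF b' b (fun v hv => h v hv)
        unfold pmf
        by_cases h6 : b ∈ F
        · rw [Set.indicator_of_mem h6, Set.indicator_of_mem (h5.2 h6)]
          rfl
        · rw [Set.indicator_of_notMem h6, Set.indicator_of_notMem (fun h7 => h6 (h5.1 h7))]
      rw [h4, mul_comm]
    · rw [Set.indicator_of_notMem (by exact h), Set.indicator_of_notMem (by exact h), mul_zero]
  rw [h1]
  simp only [h2]
  have hm : MeasurableSet ({b' | ∀ v ∈ Λ, b' v = b v} : Set (V → Bool)) := by
    refine UJ1_meas (L := Λ) ?_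
    intro c c' hc
    simp only [Set.mem_ofPred_eq]
    exact ⟨fun h v hv => (hc v hv).symm.trans (h v hv), fun h v hv => (hc v hv).trans (h v hv)⟩
  rw [integral_indicator_const _ hm, UJ1_cyl, smul_eq_mul, ← mul_assoc, ← mul_pow]
  norm_num

end TP
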