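import Pool.Agent.helper33.SP.SpecC2S
import Pool.Agent.helper64.TP.Conv

set_option autoImplicit false

namespace TP

open DP MeasureTheory

theorem VA6_mx_meas (U : Set V) (b : V → Bool) : Measurable fun b' : V → Bool => mx U b b' := by
  refine measurable_pi_lambda _ fun v => ?_
  by_cases h : v ∈ U
  · have : (fun b' : V → Bool => mx U b b' v) = fun b' => b' v := by
      funext b'
      simp only [mx, if_pos h]
    rw [this]
    exact measurable_pi_apply v
  · have : (fun b' : V → Bool => mx U b b' v) = fun _ => b v := by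
      funext b'
      simp only [mx, if_neg h]
    rw [this]
    exact measurable_const

theorem VA6_int (U : Set V) (E : Set (V → Bool)) (hE : MeasurableSet E) (f : (V → Bool) → ℝ)
    (b : V → Bool) (s : ℝ) (hs : ∀ b', mx U b b' ∈ E → f (mx U b b') = s) :
    ∫ b', E.indicator 1 (mx U b b') * f (mx U b b') ∂P1 = cpr U E b * s := by
  have h1 : (fun b' => E.indicator (1 : (V → Bool) → ℝ) (mx U b b') * f (mx U b b')) =
      ({b' | mx U b b' ∈ E} : Set (V → Bool)).indicator fun _ => s := by
    funext b'
    by_cases h : mx U b b' ∈ E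
    · rw [Set.indicator_of_mem h, Set.indicator_of_mem (by exact h), hs b' h]
      exact one_mul s
    · rw [Set.indicator_of_notMem h, Set.indicator_of_notMem (by exact h), zero_mul]
  have hm : MeasurableSet ({b' | mx U b b' ∈ E} : Set (V → Bool)) := VA6_mx_meas U b hE
  rw [h1, integral_indicator_const _ hm, smul_eq_mul]
  rfl

theorem VA6_flp (B : Set V) (b : V → Bool) : flp B (flp B b) = b := by
  funext v
  unfold flp
  by_cases h : v ∈ B
  · simp only [if_pos h, Bool.not_not]
  · simp only [if_neg h]

theorem VA6 (h4 : VA4_stmt) (h5 : VA5_stmt) (hU : UI5_stmt) : VA6_stmt := by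
  intro i N p h g z hz hgp hg hh' hN hsub b
  obtain ⟨k1, k2, -, k4, -, -⟩ := h5 z p h g hz hgp hg hh'
  have hthr : MeasurableSet (thr z p h g) :=
    (hU z (2 ^ (p - g - 1)) (2 ^ (p + h + g + 1))).1.measurableSet
  set A := Ag z p h with hA
  set I := fI z p with hI
  set T := thr z p h g with hT
  have hmx : ∀ (c b' : V → Bool) (v : V), v ∉ A → mx A c b' v = c v := by
    intro c b' v hv
    unfold mx
    rw [if_neg hv]
  -- the weight on the fibres
  have hw : ∀ c b' : V → Bool, wpar z p h g (mx A c b') =
      (1 / 2 * (gts z p h g).indicator 1 c * cpr A T (flp I c)) * T.indicator 1 (mx A c b') := by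
    intro c b'
    unfold wpar
    have e1 : (gts z p h g ∩ thr z p h g).indicator (1 : (V → Bool) → ℝ) (mx A c b') =
        (gts z p h g).indicator 1 c * T.indicator 1 (mx A c b') := by
      rw [Set.inter_indicator_one, Pi.mul_apply]
      congr 1
      by_cases hc : c ∈ gts z p h g
      · rw [Set.indicator_of_mem hc, Set.indicator_of_mem ((k2 _ _ (hmx c b')).2 hc)]
        rfl
      · rw [Set.indicator_of_notMem hc,
          Set.indicator_of_notMem (fun h' => hc ((k2 _ _ (hmx c b')).1 h'))]
    have e2 : cpr A T (flp I (mx A c b')) = cpr A T (flp I c) := by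
      refine k4 T _ _ fun v hv => ?_
      unfold flp
      rw [hmx c b' v hv]
    rw [e1, ← hA, ← hI, ← hT, e2]
    ring
  have hav : ∀ c : V → Bool, av A (fun b => wpar z p h g b * pmf (Fc i) b) c =
      (1 / 2 * (gts z p h g).indicator 1 c * cpr A T (flp I c)) *
        ∫ b', T.indicator 1 (mx A c b') * pmf (Fc i) (mx A c b') ∂P1 := by
    intro c
    unfold av
    rw [← integral_const_mul]
    refine integral_congr_ae (Filter.Eventually.of_forall fun b' => ?_)
    simp only [hw]
    ring
  have hav1 : av A (wpar z p h g) b =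
      (1 / 2 * (gts z p h g).indicator 1 b * cpr A T (flp I b)) * cpr A T b := by
    unfold av
    have e1 := VA6_int A T hthr (fun _ => 1) b 1 (fun _ _ => rfl)
    rw [mul_one] at e1
    rw [← e1, ← integral_const_mul]
    refine integral_congr_ae (Filter.Eventually.of_forall fun b' => ?_)
    simp only [hw, mul_one]
  rw [hav, hav, hav1, VA6_flp]
  by_cases hb : b ∈ gts z p h g
  · have hb' : flp I b ∈ gts z p h g := (k1 b).2 hb
    rw [Set.indicator_of_mem hb, Set.indicator_of_mem hb']
    simp only [Pi.one_apply, mul_one]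
    by_cases h1 : ∃ b₁', mx A b b₁' ∈ T
    · by_cases h2 : ∃ b₂', mx A (flp I b) b₂' ∈ T
      · obtain ⟨b₁', h1⟩ := h1
        obtain ⟨b₂', h2⟩ := h2
        have hkey : ∀ c c' : V → Bool, mx A b c ∈ T → mx A (flp I b) c' ∈ T →
            pmf (Fc i) (mx A b c) + pmf (Fc i) (mx A (flp I b) c') = gK i z p h b := fun c c' hc hc' =>
          h4 i N p h g z b _ _ hz hgp hg hh' hN hsub hb (hmx b c) (hmx (flp I b) c') hc hc'
        have s1 := VA6_int A T hthr (pmf (Fc i)) b (pmf (Fc i) (mx A b b₁')) (fun c hc => by
          have e1 := hkey c b₂' hc h2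
          have e2 := hkey b₁' b₂' h1 h2
          linarith)
        have s2 := VA6_int A T hthr (pmf (Fc i)) (flp I b) (pmf (Fc i) (mx A (flp I b) b₂'))
          (fun c hc => by
            have e1 := hkey b₁' c h1 hc
            have e2 := hkey b₁' b₂' h1 h2
            linarith)
        rw [s1, s2, ← hkey b₁' b₂' h1 h2]
        ring
      · have s2 := VA6_int A T hthr (pmf (Fc i)) (flp I b) 0 (fun c hc => absurd ⟨c, hc⟩ h2)
        have s3 : cpr A T (flp I b) = 0 := by
          unfold cpr
          have : {b' | mx A (flp I b) b' ∈ T} = ∅ := by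
            ext c
            simp only [Set.mem_ofPred_eq, Set.mem_empty_iff_false, iff_false]
            exact fun hc => h2 ⟨c, hc⟩
          rw [this]
          unfold Pr
          exact measureReal_empty
        rw [s2, s3]
        ring
    · have s1 := VA6_int A T hthr (pmf (Fc i)) b 0 (fun c hc => absurd ⟨c, hc⟩ h1)
      have s3 : cpr A T b = 0 := by
        unfold cpr
        have : {b' | mx A b b' ∈ T} = ∅ := by
          ext c
          simp only [Set.mem_ofPred_eq, Set.mem_empty_iff_false, iff_false]
          exact fun hc => h1 ⟨c, hc⟩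
        rw [this]
        unfold Pr
        exact measureReal_empty
      rw [s1, s3]
      ring
  · have hb' : flp I b ∉ gts z p h g := fun h' => hb ((k1 b).1 h')
    rw [Set.indicator_of_notMem hb, Set.indicator_of_notMem hb']
    ring

end TP
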