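import Pool.Agent.helper49.SP.SpecAS

namespace TP

open DP MeasureTheory

/-- the enumeration of `Λ`, continued by the numbers above the maximum -/
noncomputable def S1_e (Λ : Finset ℕ) (hΛ : Λ.Nonempty) (j : ℕ) : ℕ :=
  if hj : j < Λ.card then Λ.orderEmbOfFin rfl ⟨j, hj⟩ else Λ.max' hΛ + 1 + (j - Λ.card)

theorem S1_e_mem (Λ : Finset ℕ) (hΛ : Λ.Nonempty) (j : ℕ) (hj : j < Λ.card) : S1_e Λ hΛ j ∈ Λ := by
  unfold S1_e
  rw [dif_pos hj]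
  exact Finset.orderEmbOfFin_mem _ _ _

theorem S1_e_surj (Λ : Finset ℕ) (hΛ : Λ.Nonempty) (l : ℕ) (hl : l ∈ Λ) :
    ∃ j, j < Λ.card ∧ S1_e Λ hΛ j = l := by
  have h1 : l ∈ Set.range (Λ.orderEmbOfFin rfl) := by
    rw [Finset.range_orderEmbOfFin]
    exact hl
  obtain ⟨j, hj⟩ := h1
  refine ⟨j, j.2, ?_⟩
  unfold S1_e
  rw [dif_pos j.2]
  exact hj

theorem S1_e_lt (Λ : Finset ℕ) (hΛ : Λ.Nonempty) (j : ℕ) : S1_e Λ hΛ j < S1_e Λ hΛ (j + 1) := by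
  by_cases h2 : j + 1 < Λ.card
  · have h1 : j < Λ.card := by omega
    unfold S1_e
    rw [dif_pos h1, dif_pos h2]
    exact (Λ.orderEmbOfFin rfl).strictMono (by
      rw [Fin.mk_lt_mk]
      omega)
  · by_cases h1 : j < Λ.card
    · have h3 := Λ.le_max' _ (S1_e_mem Λ hΛ j h1)
      have h4 : S1_e Λ hΛ (j + 1) = Λ.max' hΛ + 1 + (j + 1 - Λ.card) := by
        unfold S1_e
        rw [dif_neg h2]
      rw [h4]
      omega
    · unfold S1_e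
      rw [dif_neg h1, dif_neg h2]
      omega

theorem S1_e_card (Λ : Finset ℕ) (hΛ : Λ.Nonempty) : S1_e Λ hΛ Λ.card = Λ.max' hΛ + 1 := by
  unfold S1_e
  rw [dif_neg (lt_irrefl _)]
  omega

theorem S1_sum (Λ : Finset ℕ) (hΛ : Λ.Nonempty) (f : ℕ → ℝ) :
    ∑ j ∈ Finset.range Λ.card, f (S1_e Λ hΛ j) = ∑ l ∈ Λ, f l := by
  refine Finset.sum_bij (fun j _ => S1_e Λ hΛ j) ?_ ?_ ?_ ?_
  · intro j hj
    exact S1_e_mem Λ hΛ j (Finset.mem_range.1 hj)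
  · intro a _ b _ hab
    exact (strictMono_nat_of_lt_succ (S1_e_lt Λ hΛ)).injective hab
  · intro l hl
    obtain ⟨j, hj, h⟩ := S1_e_surj Λ hΛ l hl
    exact ⟨j, Finset.mem_range.2 hj, h⟩
  · intro j _
    rfl

/-- the module ASS1 -/
theorem ASS1 : S1_stmt := by
  rintro ⟨C, c, k₀, hC, hc, h⟩
  refine ⟨C, c, k₀, hC, hc, ?_⟩
  intro i k t k₁ m s Λ x hΛ ht hm hk₁ hs hi hx hB
  have hpl : ∀ a b : ℕ, a < b → pl t k₁ m s a + m + k₀ ≤ pl t k₁ m s b := by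
    intro a b hab
    unfold pl
    obtain ⟨d, rfl⟩ : ∃ d, b = a + 1 + d := ⟨b - (a + 1), by omega⟩
    have h1 : (a + 1 + d) * (m + 3 * s) = a * (m + 3 * s) + (m + 3 * s) + d * (m + 3 * s) := by ring
    rw [h1]
    have h2 : 0 ≤ d * (m + 3 * s) := Nat.zero_le _
    omega
  have hmain := h i k t m Λ.card (fun j => pl t k₁ m s (S1_e Λ hΛ j)) x ht hm ?_ ?_ ?_ hx hB
  · rw [S1_sum Λ hΛ (fun l => a4 (pl t k₁ m s l) (pl t k₁ m s l + m))] at hmain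
    have he : (fun X : Set V => (∃ v ∈ X, sd x v ≤ 2 ^ t) ∧
        ∀ l ∈ Λ, ∃ v ∈ X, 2 ^ pl t k₁ m s l < sd x v ∧ sd x v < 2 ^ (pl t k₁ m s l + m)) =
        (fun X : Set V => (∃ v ∈ X, sd x v ≤ 2 ^ t) ∧
        ∀ j < Λ.card, ∃ v ∈ X, 2 ^ pl t k₁ m s (S1_e Λ hΛ j) < sd x v ∧
          sd x v < 2 ^ (pl t k₁ m s (S1_e Λ hΛ j) + m)) := by
      funext X
      refine propext (and_congr Iff.rfl ⟨fun h1 j hj => h1 _ (S1_e_mem Λ hΛ j hj), fun h1 l hl => ?_⟩)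
      obtain ⟨j, hj, rfl⟩ := S1_e_surj Λ hΛ l hl
      exact h1 j hj
    rw [he]
    exact hmain
  · unfold pl
    have : 0 ≤ S1_e Λ hΛ 0 * (m + 3 * s) := Nat.zero_le _
    omega
  · intro j
    exact hpl _ _ (S1_e_lt Λ hΛ j)
  · have h1 := hi _ (Λ.max'_mem hΛ)
    simp only [S1_e_card]
    exact h1

end TP
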