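import Pool.Agent.helper2.SP.SpecTA

set_option autoImplicit false

namespace TP.TA

open DP MeasureTheory

/-! ### Lifted positions -/

theorem TA10_mul {N : ℕ} (hN : 1 ≤ N) {a : ℤ} (h1 : -(8 * (N : ℤ)) < 8 * N * a)
    (h2 : 8 * (N : ℤ) * a < 8 * N) : a = 0 := by
  have hN' : (0 : ℤ) < 8 * N := by omega
  have h3 : a < 1 := by
    by_contra h
    push Not at h
    nlinarith
  have h4 : -1 < a := by
    by_contra h
    push Not at h
    nlinarith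
  omega

theorem TA10_uniq (hPO : PO_stmt) {x : V} {N : ℕ} (hN : 1 ≤ N) {u v : V} {A : ℤ}
    (hu : Lf x N u A) (hv : Lf x N v A) : u = v := by
  obtain ⟨hu1, k, hk⟩ := hu
  obtain ⟨hv1, l, hl⟩ := hv
  have h1 := hPO.1 x N u hN hu1
  have h2 := hPO.1 x N v hN hv1
  have h3 : l - k = 0 := by
    apply TA10_mul hN
    · have : 8 * (N : ℤ) * (l - k) = pos x N u - pos x N v := by ring_nf; ring_nf at hk hl; omega
      rw [this]
      omega
    · have : 8 * (N : ℤ) * (l - k) = pos x N u - pos x N v := by ring_nf; ring_nf at hk hl; omega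
      rw [this]
      omega
  have h4 : l = k := by omega
  subst h4
  exact hPO.2.1 x N u v hN hu1 hv1 (by omega)

theorem TA10_same {x : V} {N : ℕ} (hN : 1 ≤ N) {u : V} {A B : ℤ}
    (hu : Lf x N u A) (hv : Lf x N u B) (h1 : A - B < 8 * N) (h2 : B - A < 8 * N) : A = B := by
  obtain ⟨hu1, k, hk⟩ := hu
  obtain ⟨hv1, l, hl⟩ := hv
  have e : 8 * (N : ℤ) * (l - k) = B - A := by rw [hk, hl]; ring
  have h3 : l - k = 0 := by
    apply TA10_mul hN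
    · rw [e]
      omega
    · rw [e]
      omega
  have h4 : l = k := by omega
  subst h4
  omega

theorem TA10_shift {x : V} {N : ℕ} {u : V} {A : ℤ} (hu : Lf x N u A) : Lf x N u (A + 8 * N) := by
  obtain ⟨hu1, k, hk⟩ := hu
  exact ⟨hu1, k + 1, by rw [hk]; ring⟩

theorem TA10_nxt {x : V} {N : ℕ} {a b : V} {A : ℤ} (h : nxt x N a b) (ha : Lf x N a A) :
    Lf x N b (A + 1) := by
  obtain ⟨h1, h2, h3⟩ := h
  obtain ⟨-, k, hk⟩ := ha
  rcases h3 with h3 | ⟨h3, h4⟩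
  · exact ⟨h2, k, by rw [hk, h3]; ring⟩
  · exact ⟨h2, k + 1, by rw [hk, h3, h4]; ring⟩

theorem TA10_prv {x : V} {N : ℕ} {a b : V} {A : ℤ} (h : nxt x N b a) (ha : Lf x N a A) :
    Lf x N b (A - 1) := by
  obtain ⟨h1, h2, h3⟩ := h
  obtain ⟨-, k, hk⟩ := ha
  rcases h3 with h3 | ⟨h3, h4⟩
  · exact ⟨h1, k, by rw [hk, h3]; ring⟩
  · exact ⟨h1, k - 1, by rw [hk, h3, h4]; ring⟩

theorem TA10_arc (hPO : PO_stmt) {x : V} {N : ℕ} (hN : 1 ≤ N) {v u w : V} {A B : ℤ}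
    (hv : Lf x N v A) (hu : Lf x N u B) (hAB : A ≤ B) (hBA : B < A + 8 * N)
    (h : onArc x N v u w) : ∃ W, Lf x N w W ∧ A ≤ W ∧ W ≤ B := by
  obtain ⟨hv1, hu1, hw1, h⟩ := h
  obtain ⟨-, k, hk⟩ := hv
  obtain ⟨-, l, hl⟩ := hu
  have p1 := hPO.1 x N v hN hv1
  have p2 := hPO.1 x N u hN hu1
  have p3 := hPO.1 x N w hN hw1
  have e : 8 * (N : ℤ) * (l - k) = (B - A) - (pos x N u - pos x N v) := by rw [hk, hl]; ring
  split_ifs at h with hc
  · have h3 : l - k = 0 := by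
      apply TA10_mul hN
      · rw [e]
        omega
      · rw [e]
        omega
    have h4 : l = k := by omega
    subst h4
    exact ⟨pos x N w + 8 * N * l, ⟨hw1, l, rfl⟩, by omega, by omega⟩
  · have e' : 8 * (N : ℤ) * (l - k - 1) = (B - A) - (pos x N u - pos x N v) - 8 * N := by
      rw [hk, hl]; ring
    have h3 : l - k - 1 = 0 := by
      apply TA10_mul hN
      · rw [e']
        omega
      · rw [e']
        omega
    have h4 : l = k + 1 := by omega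
    subst h4
    rcases h with h | h
    · refine ⟨pos x N w + 8 * N * k, ⟨hw1, k, rfl⟩, by omega, ?_⟩
      have : 8 * (N : ℤ) * (k + 1) = 8 * N * k + 8 * N := by ring
      omega
    · refine ⟨pos x N w + 8 * N * (k + 1), ⟨hw1, k + 1, rfl⟩, ?_, by omega⟩
      have : 8 * (N : ℤ) * (k + 1) = 8 * N * k + 8 * N := by ring
      omega

/-! ### Both sides at once -/

/-- `GO` and `GI`. -/
def TA10_GX : Prop := ∀ (s : Bool) (x : V) (m n : ℕ) (C : Set V) (u v : V), Even (x.1 + x.2) →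
  1 ≤ m → m < n → C ⊆ ann x m n → u ∈ bd x (ci s m n) → v ∈ bd x (ci s m n) →
  (∃ p ∈ bd x (ci (!s) m n), Con C u p) → (∃ p ∈ bd x (ci (!s) m n), Con (ann x m n \ C) v p) →
    (∃ a b : V, (nxt x (ci s m n) a b ∨ (nxt x (ci s m n) b a ∧ b ≠ v)) ∧
      onArc x (ci s m n) u v a ∧ onArc x (ci s m n) u v b ∧ a ∈ C ∧ b ∉ C ∧
        ∃ p ∈ bd x (ci (!s) m n), Con (nbd (ann x m n) C) b p) ∧
    (∃ a b : V, ((nxt x (ci s m n) a b ∧ a ≠ u) ∨ nxt x (ci s m n) b a) ∧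
      onArc x (ci s m n) v u a ∧ onArc x (ci s m n) v u b ∧ a ∈ C ∧ b ∉ C ∧
        ∃ p ∈ bd x (ci (!s) m n), Con (nbd (ann x m n) C) b p)

theorem TA10_gx (hGO : GO_stmt) (hGI : GI_stmt) : TA10_GX := by
  intro s
  cases s
  · exact hGI
  · exact hGO

/-- `QO` and `QI`. -/
def TA10_QX : Prop := ∀ (s : Bool) (c : V → Bool) (x : V) (m n : ℕ), Even (x.1 + x.2) →
  1 ≤ m → m < n → ∀ u v : V, cx s c x m n u → cx s c x m n v → c u ≠ c v →
    (∃ a b : V, ((nxt x (ci s m n) a b ∧ a ≠ u) ∨ nxt x (ci s m n) b a) ∧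
      onArc x (ci s m n) v u a ∧ onArc x (ci s m n) v u b ∧ c b = c v ∧
        Conn c (c u) (ann x m n) u a ∧ cx s c x m n b)

theorem TA10_qx (hQO : QO_stmt) (hQI : QI_stmt) : TA10_QX := by
  intro s c x m n h1 h2 h3 u v hu hv huv
  cases s
  · exact (hQI c x m n h1 h2 h3 u v hu hv huv).2
  · exact (hQO c x m n h1 h2 h3 u v hu hv huv).2

theorem TA10_cx {s : Bool} {c : V → Bool} {x : V} {m n : ℕ} {u : V} (hu : u ∈ bd x (ci s m n))
    (h : ∃ p ∈ bd x (ci (!s) m n), Conn c (c u) (ann x m n) u p) : cx s c x m n u := by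
  cases s
  · exact ⟨hu, h⟩
  · exact ⟨hu, h⟩

theorem TA10_cxm {s : Bool} {c : V → Bool} {x : V} {m n : ℕ} {u : V} (h : cx s c x m n u) :
    u ∈ bd x (ci s m n) := by
  cases s
  · exact h.1
  · exact h.1

theorem TA10_ci1 {s : Bool} {m n : ℕ} (hm : 1 ≤ m) (hmn : m < n) : 1 ≤ ci s m n := by
  unfold ci
  split_ifs
  · omega
  · exact hm

/-- a point of a crossing cluster is connected in it to the other circle -/
theorem TA10_oth (hA1 : TA1_stmt) {s : Bool} {c : V → Bool} {x : V} {m n : ℕ} {K : Set V}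
    (h : WC c x m n K) {u : V} (hu : u ∈ K) : ∃ p ∈ bd x (ci (!s) m n), Con K u p := by
  obtain ⟨-, -, hcon, ⟨p, hp, hpm⟩, ⟨q, hq, hqn⟩, -, -⟩ := hA1.1 c x m n K h
  cases s
  · exact ⟨q, hqn, hcon u hu q hq⟩
  · exact ⟨p, hpm, hcon u hu p hp⟩

theorem TA10_meet (hA1 : TA1_stmt) {s : Bool} {c : V → Bool} {x : V} {m n : ℕ} {K : Set V}
    (h : WC c x m n K) : (K ∩ bd x (ci s m n)).Nonempty := by
  obtain ⟨-, -, -, ⟨p, hp, hpm⟩, ⟨q, hq, hqn⟩, -, -⟩ := hA1.1 c x m n K h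
  cases s
  · exact ⟨p, hp, hpm⟩
  · exact ⟨q, hq, hqn⟩

/-- one sector: from the last point of `K` to the first point of `K'` -/
theorem TA10_half (hA1 : TA1_stmt) (hA2 : TA2_stmt) (hPO : PO_stmt) (hGX : TA10_GX)
    (hQX : TA10_QX) {s : Bool} {c : V → Bool} {x : V} {m n : ℕ} {K K' : Set V}
    (hx : Even (x.1 + x.2)) (hm : 1 ≤ m) (hmn : m < n) (hc : BC c) (hTC : TC c x m n K K')
    {u v : V} {A B A' B' : ℤ} (hu : u ∈ K) (hv : v ∈ K') (hA : Lf x (ci s m n) u A)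
    (hB : Lf x (ci s m n) v B) (hAB : A < B) (hBA : B < A' + 8 * (ci s m n : ℤ)) (hA' : A' ≤ A)
    (hKl : ∀ w ∈ K, w ∈ bd x (ci s m n) → ∃ L, Lf x (ci s m n) w L ∧ A' ≤ L ∧ L ≤ A)
    (hB' : B ≤ B') (hBA' : B' < A + 8 * (ci s m n : ℤ))
    (hKl' : ∀ w ∈ K', w ∈ bd x (ci s m n) → ∃ L, Lf x (ci s m n) w L ∧ B ≤ L ∧ L ≤ B') :
    ∃ (y0 y1 z1 z2 : V) (L1 M1 : ℤ), Lf x (ci s m n) y0 (A + 1) ∧ Lf x (ci s m n) z2 (B - 1) ∧
      Lf x (ci s m n) y1 L1 ∧ Lf x (ci s m n) z1 M1 ∧ (M1 = L1 - 1 ∨ M1 = L1 + 1) ∧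
      A + 1 < L1 ∧ L1 ≤ B - 1 ∧ A + 1 ≤ M1 ∧ M1 ≤ B - 1 ∧
      (y0 ∈ nbd (ann x m n) K ∧ ∃ p ∈ bd x (ci (!s) m n), Con (nbd (ann x m n) K) y0 p) ∧
      (z2 ∈ nbd (ann x m n) K' ∧ ∃ p ∈ bd x (ci (!s) m n), Con (nbd (ann x m n) K') z2 p) ∧
      Conn (Th x m n K c) false (ann x m n) z2 y1 ∧ Th x m n K c z1 = true ∧
      cx s (Th x m n K c) x m n z1 := by
  have hN := TA10_ci1 (s := s) hm hmn
  have hW := hTC.1
  have hW' := hTC.2.1
  obtain ⟨hKa, hKw, -, -, -, hKn, -⟩ := hA1.1 c x m n K hW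
  obtain ⟨hKa', hKw', -, -, -, hKn', -⟩ := hA1.1 c x m n K' hW'
  obtain ⟨-, -, -, t4, t5, t6, t7, t8⟩ := hA2.2 c x m n K K' hc hTC
  obtain ⟨-, -, hfl⟩ := hA2.1 c x m n K hc
  obtain ⟨-, hThe, -⟩ := hfl hW
  have hco : ∃ p ∈ bd x (ci (!s) m n), Con (ann x m n \ K) v p := by
    obtain ⟨p, hp, hpc⟩ := TA10_oth hA1 (s := s) hW' hv
    have hs : K' ⊆ ann x m n \ K := fun w hw =>
      ⟨hKa' hw, fun hwK => Set.disjoint_left.1 t6 hwK hw⟩
    exact ⟨p, hp, hpc.mono hs⟩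
  have hco' : ∃ p ∈ bd x (ci (!s) m n), Con (ann x m n \ K') u p := by
    obtain ⟨p, hp, hpc⟩ := TA10_oth hA1 (s := s) hW hu
    have hs : K ⊆ ann x m n \ K' := fun w hw =>
      ⟨hKa hw, fun hwK => Set.disjoint_left.1 t6 hw hwK⟩
    exact ⟨p, hp, hpc.mono hs⟩
  -- y0
  obtain ⟨y0, hy0, hy0n⟩ : ∃ b, Lf x (ci s m n) b (A + 1) ∧
      ∃ p ∈ bd x (ci (!s) m n), Con (nbd (ann x m n) K) b p := by
    obtain ⟨⟨a, b, h1, h2, h3, h4, h5, h6⟩, -⟩ := hGX s x m n K u v hx hm hmn hKa hA.1 hB.1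
      (TA10_oth hA1 hW hu) hco
    obtain ⟨La, hLa, hLa1, hLa2⟩ := TA10_arc hPO hN hA hB hAB.le (by omega) h2
    obtain ⟨La', hLa', hLa3, hLa4⟩ := hKl a h4 hLa.1
    have e1 := TA10_same hN hLa hLa' (by omega) (by omega)
    have e2 : La = A := by omega
    rw [e2] at hLa
    rcases h1 with h1 | ⟨h1, h1'⟩
    · exact ⟨b, TA10_nxt h1 hLa, h6⟩
    · exfalso
      have hb1 := TA10_prv h1 hLa
      obtain ⟨Lb, hLb, hLb1, hLb2⟩ := TA10_arc hPO hN hA hB hAB.le (by omega) h3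
      have e3 := TA10_same hN (TA10_shift hb1) hLb (by omega) (by omega)
      have e4 : Lb = B := by omega
      rw [e4] at hLb
      exact h1' (TA10_uniq hPO hN hLb hB)
  -- z2
  obtain ⟨z2, hz2, hz2n⟩ : ∃ b, Lf x (ci s m n) b (B - 1) ∧
      ∃ p ∈ bd x (ci (!s) m n), Con (nbd (ann x m n) K') b p := by
    obtain ⟨-, ⟨a, b, h1, h2, h3, h4, h5, h6⟩⟩ := hGX s x m n K' v u hx hm hmn hKa' hB.1 hA.1
      (TA10_oth hA1 hW' hv) hco'
    obtain ⟨La, hLa, hLa1, hLa2⟩ := TA10_arc hPO hN hA hB hAB.le (by omega) h2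
    obtain ⟨La', hLa', hLa3, hLa4⟩ := hKl' a h4 hLa.1
    have e1 := TA10_same hN hLa hLa' (by omega) (by omega)
    have e2 : La = B := by omega
    rw [e2] at hLa
    rcases h1 with ⟨h1, h1'⟩ | h1
    · exact absurd (TA10_uniq hPO hN hLa hB) h1'
    · exact ⟨b, TA10_prv h1 hLa, h6⟩
  have hy0m : y0 ∈ nbd (ann x m n) K := by
    obtain ⟨p, -, hp⟩ := hy0n
    exact hp.mem_left
  have hz2m : z2 ∈ nbd (ann x m n) K' := by
    obtain ⟨p, -, hp⟩ := hz2n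
    exact hp.mem_left
  -- colours
  have d1 : Th x m n K c y0 = true := by
    rw [hThe y0 (Or.inr hy0m)]
    exact hKn y0 hy0m
  have d2 : Th x m n K c z2 = false := t5 z2 hz2m
  have g1 : A + 1 ≠ B := by
    intro he
    rw [he] at hy0
    have h1 := TA10_uniq hPO hN hy0 hB
    have h2 := hKn y0 hy0m
    rw [h1, hKw' v hv] at h2
    exact absurd h2 (by decide)
  have g2 : A + 1 ≠ B - 1 := by
    intro he
    rw [he] at hy0
    have h1 := TA10_uniq hPO hN hy0 hz2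
    rw [h1, d2] at d1
    exact absurd d1 (by decide)
  have hcy : cx s (Th x m n K c) x m n y0 := by
    refine TA10_cx hy0.1 ?_
    obtain ⟨p, hp, hpc⟩ := hy0n
    have hs : nbd (ann x m n) K ⊆ {w | w ∈ ann x m n ∧ Th x m n K c w = Th x m n K c y0} := by
      intro w hw
      refine ⟨hw.1, ?_⟩
      rw [d1, hThe w (Or.inr hw)]
      exact hKn w hw
    exact ⟨p, hp, hpc.mono hs⟩
  have hcz : cx s (Th x m n K c) x m n z2 := by
    refine TA10_cx hz2.1 ?_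
    obtain ⟨p, hp, hpc⟩ := hz2n
    have hs : nbd (ann x m n) K' ⊆ {w | w ∈ ann x m n ∧ Th x m n K c w = Th x m n K c z2} := by
      intro w hw
      refine ⟨hw.1, ?_⟩
      rw [d2]
      exact t5 w hw
    exact ⟨p, hp, hpc.mono hs⟩
  obtain ⟨a, b, h1, h2, h3, h4, h5, h6⟩ := hQX s (Th x m n K c) x m n hx hm hmn z2 y0 hcz hcy
    (by rw [d1, d2]; decide)
  rw [d2] at h5
  rw [d1] at h4
  have hle : A + 1 ≤ B - 1 := by omega
  obtain ⟨La, hLa, hLa1, hLa2⟩ := TA10_arc hPO hN hy0 hz2 hle (by omega) h2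
  have hane : La ≠ A + 1 := by
    intro he
    rw [he] at hLa
    have h7 := TA10_uniq hPO hN hLa hy0
    have h8 := h5.colour_right
    rw [h7, d1] at h8
    exact absurd h8 (by decide)
  rcases h1 with ⟨h1, h1'⟩ | h1
  · have hne : La ≠ B - 1 := by
      intro he
      rw [he] at hLa
      exact h1' (TA10_uniq hPO hN hLa hz2)
    exact ⟨y0, a, b, z2, La, La + 1, hy0, hz2, hLa, TA10_nxt h1 hLa, Or.inr rfl, by omega, by omega,
      by omega, by omega, ⟨hy0m, hy0n⟩, ⟨hz2m, hz2n⟩, h5, h4, h6⟩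
  · exact ⟨y0, a, b, z2, La, La - 1, hy0, hz2, hLa, TA10_prv h1 hLa, Or.inl rfl, by omega, by omega,
      by omega, by omega, ⟨hy0m, hy0n⟩, ⟨hz2m, hz2n⟩, h5, h4, h6⟩

/-- the module TA10 -/
theorem TA10 (hA1 : TA1_stmt) (hA2 : TA2_stmt) (hA9 : TA9_stmt) (hPO : PO_stmt) (hSI : SI_stmt)
    (hSO : SO_stmt) (hGO : GO_stmt) (hGI : GI_stmt) (hQO : QO_stmt) (hQI : QI_stmt) :
    TA10_stmt := by
  intro s c x m n K K' hx hm hmn hc hTC
  have hN := TA10_ci1 (s := s) hm hmn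
  have hGX := TA10_gx hGO hGI
  have hQX := TA10_qx hQO hQI
  have hTC' := (hA2.2 c x m n K K' hc hTC).1
  obtain ⟨-, -, -, -, -, t6, -, -⟩ := hA2.2 c x m n K K' hc hTC
  have hW := hTC.1
  have hW' := hTC.2.1
  obtain ⟨hKa, -, hKc, -, -, -, -⟩ := hA1.1 c x m n K hW
  obtain ⟨hKa', -, hKc', -, -, -, -⟩ := hA1.1 c x m n K' hW'
  have halt : ∀ a ∈ K ∩ bd x (ci s m n), ∀ b ∈ K' ∩ bd x (ci s m n),
      ∀ c' ∈ K ∩ bd x (ci s m n), ∀ d ∈ K' ∩ bd x (ci s m n), ¬ alt x (ci s m n) a b c' d := by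
    intro a ha b hb c' hc' d hd h
    have hne : (K ∩ K').Nonempty := by
      cases s
      · exact hSO x m a b c' d K K' hx hm h (fun v hv => (hKa hv).1) (fun v hv => (hKa' hv).1)
          (hKc a ha.1 c' hc'.1) (hKc' b hb.1 d hd.1)
      · exact hSI x n a b c' d K K' hx (by omega) h (fun v hv => (hKa hv).2)
          (fun v hv => (hKa' hv).2) (hKc a ha.1 c' hc'.1) (hKc' b hb.1 d hd.1)
    obtain ⟨w, hw, hw'⟩ := hne
    exact Set.disjoint_left.1 t6 hw hw'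
  obtain ⟨z₀, z₅, z₂, z₃, P₀, P₅, P₂, P₃, a0, a5, a2, a3, l0, l5, l2, l3, q1, q2, q3, q4, q5, q6⟩ :=
    hA9 x (ci s m n) (K ∩ bd x (ci s m n)) (K' ∩ bd x (ci s m n)) hN Set.inter_subset_right
      Set.inter_subset_right (TA10_meet hA1 hW) (TA10_meet hA1 hW')
      (t6.mono Set.inter_subset_left Set.inter_subset_left) halt
  obtain ⟨y0, y1, z1, z2, L1, M1, b1, b2, b3, b4, b5, b6, b7, b8, b9, b10, b11, b12, b13, b14⟩ :=
    TA10_half hA1 hA2 hPO hGX hQX (s := s) hx hm hmn hc hTC (u := z₀) (v := z₂) (A := P₀) (B := P₂)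
      (A' := P₅) (B' := P₃) a0.1 a2.1 l0 l2 q2 (by omega) q1 (fun w hw hwb => q5 w ⟨hw, hwb⟩) q3
      (by omega) (fun w hw hwb => q6 w ⟨hw, hwb⟩)
  obtain ⟨y3, y4, z4, z5, L4, M4, c1, c2, c3, c4, c5, c6, c7, c8, c9, c10, c11, c12, c13, c14⟩ :=
    TA10_half hA1 hA2 hPO hGX hQX (s := s) hx hm hmn hc hTC' (u := z₃) (v := z₅) (A := P₃)
      (B := P₅ + 8 * (ci s m n : ℤ)) (A' := P₂) (B' := P₀ + 8 * (ci s m n : ℤ)) a3.1 a5.1 l3
      (TA10_shift l5) q4 (by omega) q3 (fun w hw hwb => q6 w ⟨hw, hwb⟩) (by omega)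
      (by omega) (fun w hw hwb => by
        obtain ⟨L, hL, hL1, hL2⟩ := q5 w ⟨hw, hwb⟩
        exact ⟨L + 8 * (ci s m n : ℤ), TA10_shift hL, by omega, by omega⟩)
  refine ⟨fun i => if i = 0 then y0 else if i = 1 then y1 else if i = 2 then z₂ else
      if i = 3 then y3 else if i = 4 then y4 else z₅,
    fun i => if i = 0 then z₀ else if i = 1 then z1 else if i = 2 then z2 else
      if i = 3 then z₃ else if i = 4 then z4 else z5,
    fun i => if i = 0 then P₀ + 1 else if i = 1 then L1 else if i = 2 then P₂ else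
      if i = 3 then P₃ + 1 else if i = 4 then L4 else P₅ + 8 * (ci s m n : ℤ),
    fun i => if i = 0 then P₀ else if i = 1 then M1 else if i = 2 then P₂ - 1 else
      if i = 3 then P₃ else if i = 4 then M4 else P₅ + 8 * (ci s m n : ℤ) - 1, ?_⟩
  constructor
  · intro i hi
    interval_cases i
    · exact b1
    · exact b3
    · exact l2
    · exact c1
    · exact c3
    · exact TA10_shift l5
  · intro i hi
    interval_cases i
    · exact l0
    · exact b4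
    · exact b2
    · exact l3
    · exact c4
    · exact c2
  · rfl
  · exact b5
  · show P₂ = P₂ - 1 + 1
    ring
  · rfl
  · exact c5
  · show P₅ + 8 * (ci s m n : ℤ) = P₅ + 8 * (ci s m n : ℤ) - 1 + 1
    ring
  · exact ⟨b6, b7, b8, b9⟩
  · exact q3
  · exact ⟨c6, c7, c8, c9⟩
  · show P₅ + 8 * (ci s m n : ℤ) ≤ P₀ + 8 * (ci s m n : ℤ)
    omega
  · exact ⟨a0.1, b10⟩
  · exact ⟨b12, b13, b14⟩
  · exact ⟨a2.1, b11⟩
  · exact ⟨a3.1, c10⟩
  · exact ⟨c12, c13, c14⟩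
  · exact ⟨a5.1, c11⟩

end TP.TA
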