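import Pool.Agent.helper33.SP.SpecC2S
import Pool.Agent.helper64.TP.Basic

set_option autoImplicit false

namespace TP

open DP MeasureTheory

theorem VA12_P1 : IsProbabilityMeasure P1 := by
  unfold P1
  infer_instance

theorem VA12_Pr (F : Set (V → Bool)) : 0 ≤ Pr F ∧ Pr F ≤ 1 := by
  have := VA12_P1
  exact ⟨measureReal_nonneg, measureReal_le_one⟩

theorem VA12_w (z : V) (p h g : ℕ) (b : V → Bool) : 0 ≤ wpar z p h g b ∧ wpar z p h g b ≤ 1 := by
  unfold wpar cpr
  obtain ⟨h1, h2⟩ := VA12_Pr {b' | mx (Ag z p h) (flp (fI z p) b) b' ∈ thr z p h g}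
  have h3 : (gts z p h g ∩ thr z p h g).indicator (1 : (V → Bool) → ℝ) b = 0 ∨
      (gts z p h g ∩ thr z p h g).indicator (1 : (V → Bool) → ℝ) b = 1 := by
    by_cases hb : b ∈ gts z p h g ∩ thr z p h g
    · right
      rw [Set.indicator_of_mem hb]
      rfl
    · left
      rw [Set.indicator_of_notMem hb]
  rcases h3 with h3 | h3 <;> rw [h3] <;> constructor <;> linarith

theorem VA12_N (z : V) (g h P J : ℕ) (b : V → Bool) : 0 ≤ Nf z g h P J b ∧ Nf z g h P J b ≤ 1 := by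
  unfold Nf
  have h1 : ∀ l ∈ Finset.range J, 0 ≤ 1 - wf z g h P l b ∧ 1 - wf z g h P l b ≤ 1 := by
    intro l _
    obtain ⟨h2, h3⟩ := VA12_w z (zx g h P l) h g b
    unfold wf
    constructor <;> linarith
  exact ⟨Finset.prod_nonneg fun l hl => (h1 l hl).1, Finset.prod_le_one (fun l hl => (h1 l hl).1)
    fun l hl => (h1 l hl).2⟩

theorem VA12_Q (x y : V) (g h P P' J : ℕ) (b : V → Bool) : 0 ≤ Q3 x y g h P P' J b := by
  obtain ⟨a1, a2⟩ := VA12_N x g h P J b
  obtain ⟨b1, b2⟩ := VA12_N y g h P J b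
  obtain ⟨c1, c2⟩ := VA12_N x g h P' J b
  unfold Q3
  have h1 : (1 - Nf x g h P J b) * (1 - Nf y g h P J b) ≤ 1 :=
    mul_le_one₀ (by linarith) (by linarith) (by linarith)
  have h2 : (1 - Nf x g h P J b) * (1 - Nf y g h P J b) * (1 - Nf x g h P' J b) ≤ 1 :=
    mul_le_one₀ h1 (by linarith) (by linarith)
  linarith

theorem VA12_mx_off (U : Set V) (b b' : V → Bool) (v : V) (hv : v ∉ U) : mx U b b' v = b v := by
  unfold mx
  rw [if_neg hv]

theorem VA12_mx_self (U : Set V) (b : V → Bool) : mx U b b = b := by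
  funext v
  unfold mx
  split_ifs <;> rfl

theorem VA12_dl_mul (U : Set V) (q f : (V → Bool) → ℝ) (b : V → Bool)
    (hq : ∀ b', q (mx U b b') = q b) : dl U (fun b => q b * f b) b = q b * dl U f b := by
  unfold dl av
  simp only [hq]
  rw [integral_const_mul]
  ring

theorem VA12_dl_le (U : Set V) (f : (V → Bool) → ℝ) (C : ℝ) (hf : ∀ b, |f b| ≤ C) (b : V → Bool) :
    |dl U f b| ≤ 2 * C := by
  have := VA12_P1
  unfold dl av
  have h1 : ‖∫ b', f (mx U b b') ∂P1‖ ≤ C * P1.real Set.univ :=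
    norm_integral_le_of_norm_le_const (Filter.Eventually.of_forall fun b' => hf _)
  rw [probReal_univ, mul_one, Real.norm_eq_abs] at h1
  have h2 := abs_sub (f b) (∫ b', f (mx U b b') ∂P1)
  have h3 := hf b
  linarith

/-- if `dl` does not vanish, the function differs somewhere on the fibre -/
theorem VA12_dl_ne (U : Set V) (f : (V → Bool) → ℝ) (b : V → Bool) (h : dl U f b ≠ 0) :
    ∃ b', f (mx U b b') ≠ f b := by
  by_contra hc
  push Not at hc
  apply h
  have := VA12_P1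
  unfold dl av
  simp only [hc]
  rw [integral_const, probReal_univ, one_smul, sub_self]

/-- if `dl U g` does not vanish then `g` does not vanish identically on the fibre -/
theorem VA12_dl_ne' (U : Set V) (g : (V → Bool) → ℝ) (b : V → Bool) (h : dl U g b ≠ 0) :
    ∃ c : V → Bool, (∀ v, v ∉ U → c v = b v) ∧ g c ≠ 0 := by
  by_contra hc
  push Not at hc
  apply h
  unfold dl av
  have h1 : ∀ b', g (mx U b b') = 0 := fun b' => hc _ (VA12_mx_off U b b')
  have h2 : g b = 0 := hc b fun _ _ => rfl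
  simp only [h1, h2]
  rw [integral_zero, sub_self]

theorem VA12_comm (h5 : UJ5_stmt) (U U' : Set V) (f : (V → Bool) → ℝ) (hf : FinR f)
    (hd : Disjoint U U') (b : V → Bool) : dl U (dl U' f) b = dl U' (dl U f) b := by
  obtain ⟨i1, -, i3, -, i5, -⟩ := h5
  have key : ∀ (A A' : Set V), dl A (dl A' f) b = f b - av A' f b - av A f b + av A (av A' f) b := by
    intro A A'
    have e1 : dl A' f = fun b => f b + (fun b => (-1) * av A' f b) b := by
      funext c
      unfold dl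
      ring
    have hF1 : FinR (av A' f) := (i1 A' f hf).1
    have hF2 : FinR (fun b => (-1) * av A' f b) := by
      obtain ⟨Λ, hΛ⟩ := hF1
      exact ⟨Λ, fun c c' hc => by simp only [hΛ c c' hc]⟩
    have e2 : av A (dl A' f) b = av A f b - av A (av A' f) b := by
      rw [e1, (i3 A f (fun b => (-1) * av A' f b) hf hF2).1 b,
        (i3 A (av A' f) (av A' f) hF1 hF1).2.1 (-1) b]
      ring
    unfold dl at e2 ⊢
    rw [e2]
    ring
  rw [key, key, i5 U U' f hf hd b, i5 U' U f hf hd.symm b, Set.union_comm]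
  ring

theorem VA12_restrict (hLQ : K.LQ_stmt) (z : V) (a n : ℕ) (c b : V → Bool) (U : Set V)
    (hc : c ∈ F4 z a n) (hcb : ∀ v, v ∉ U → c v = b v)
    (hU : ∀ v, 2 ^ a ≤ sd z v → sd z v ≤ 2 ^ n → br v ∉ U) : b ∈ F4 z a n := by
  obtain ⟨Λ, hΛ, hdep⟩ := hLQ.1 z a n
  refine (hdep c b fun v hv => hcb _ ?_).1 hc
  have := hΛ hv
  exact hU v this.1 this.2

theorem VA12_wf (h7 : VA7_stmt) (z : V) (g h P j : ℕ) (hz : (z.1 + z.2) % 2 = 0) (hg : 1 ≤ g)
    (hh' : 1 ≤ h) (U : Set V)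
    (hU : ∀ v, 2 ^ (zx g h P j - g - 2) < sd z v ∧ sd z v < 2 ^ (zx g h P j + h + g + 2) → v ∉ U)
    (b b' : V → Bool) : wf z g h P j (mx U b b') = wf z g h P j b := by
  unfold wf
  refine ((h7 z (zx g h P j) h g hz ?_ hg hh').2.2.1 _ _ fun v h1 h2 => ?_).1
  · unfold zx
    omega
  · exact VA12_mx_off U b b' v (hU v ⟨h1, h2⟩)

/-- the module VA12 -/
theorem VA12 (h7 : VA7_stmt) (h9 : VA9_stmt) (h5 : UJ5_stmt) (h4 : UJ4_stmt) (h15 : UJ15_stmt)
    (hLQ : K.LQ_stmt) : VA12_stmt := by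
  intro i N t p m s g h J x y hG b
  obtain ⟨c1, -, -, -, c5, c6, c7, c8⟩ := h9 i N t p m s g h J x y hG _ rfl
  have hGe := hG.even
  have hGs := hG.hs
  have hGg := hG.hg
  have hGh := hG.hh
  have hGt := hG.ht
  have hGJ := hG.hJ
  have hGN := hG.hN
  -- the distance of the centres
  have hsd : sd x y = 2 ^ (p + m + s) := by
    have e : ((2 : ℤ) ^ (p + m + s)) = ((2 ^ (p + m + s) : ℕ) : ℤ) := by push_cast; rfl
    have key : ∀ n : ℕ, sd x (x.1 + (n : ℤ), x.2) = n ∧ sd x (x.1, x.2 + (n : ℤ)) = n := by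
      intro n
      unfold sd
      dsimp only
      constructor <;> omega
    rcases hG.y_eq with hy | hy
    · rw [hy, e]
      exact (key _).1
    · rw [hy, e]
      exact (key _).2
  have hye : (y.1 + y.2) % 2 = 0 := by
    have e : ((2 : ℤ) ^ (p + m + s)) = 2 * 2 ^ (p + m + s - 1) := by
      rw [← pow_succ']
      congr 1
      omega
    rcases hG.y_eq with hy | hy <;> rw [hy] <;> simp only [e] <;> omega
  -- Q does not depend on the coins in the two boxes
  have hQU : ∀ U : Set V, Disjoint U (Wc x y p m s) → ∀ b b' : V → Bool,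
      Q3 x y g h (p + 3) (p + m + 3 * s) J (mx U b b') =
        Q3 x y g h (p + 3) (p + m + 3 * s) J b := by
    intro U hU b b'
    have hN : ∀ (z : V) (P : ℕ), (z.1 + z.2) % 2 = 0 →
        (∀ j < J, {v | 2 ^ (zx g h P j - g - 2) < sd z v ∧ sd z v < 2 ^ (zx g h P j + h + g + 2)} ⊆
          Wc x y p m s) → Nf z g h P J (mx U b b') = Nf z g h P J b := by
      intro z P hz hsub
      unfold Nf
      refine Finset.prod_congr rfl fun l hl => ?_
      rw [VA12_wf h7 z g h P l hz hGg hGh U (fun v hv hvU =>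
        Set.disjoint_left.1 hU hvU (hsub l (Finset.mem_range.1 hl) hv)) b b']
    unfold Q3
    rw [hN x (p + 3) hGe fun j hj => (c1 j hj).1, hN y (p + 3) hye fun j hj => (c1 j hj).2.1,
      hN x (p + m + 3 * s) hGe fun j hj => (c1 j hj).2.2]
  have hd1 : Disjoint (U1c x t) (Wc x y p m s) := c7.mono_left c6
  have hd2 : Disjoint (U2c y p) (Wc x y p m s) := c8
  have hd12 : Disjoint (U1c x t) (U2c y p) := c5.mono_left c6
  have e1 : dl (U2c y p) (fun b => Q3 x y g h (p + 3) (p + m + 3 * s) J b * pmf (Fc i) b) =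
      fun b => Q3 x y g h (p + 3) (p + m + 3 * s) J b * dl (U2c y p) (pmf (Fc i)) b := by
    funext c
    exact VA12_dl_mul _ _ _ c (hQU _ hd2 c)
  rw [e1, VA12_dl_mul _ _ _ b (hQU _ hd1 b), abs_mul, abs_of_nonneg (VA12_Q _ _ _ _ _ _ _ _),
    mul_comm (4 : ℝ), mul_assoc]
  refine mul_le_mul_of_nonneg_left ?_ (VA12_Q _ _ _ _ _ _ _ _)
  have hpmf : ∀ b, |pmf (Fc i) b| ≤ 1 := by
    intro b
    unfold pmf
    by_cases h : b ∈ Fc i
    · rw [Set.indicator_of_mem h]
      norm_num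
    · rw [Set.indicator_of_notMem h]
      norm_num
  have hD4 : |dl (U1c x t) (dl (U2c y p) (pmf (Fc i))) b| ≤ 4 := by
    have h1 := VA12_dl_le (U2c y p) (pmf (Fc i)) 1 hpmf
    have h2 := VA12_dl_le (U1c x t) _ (2 * 1) h1 b
    linarith
  by_cases hne : dl (U1c x t) (dl (U2c y p) (pmf (Fc i))) b = 0
  · rw [hne, abs_zero]
    refine mul_nonneg (by norm_num) (Set.indicator_nonneg (fun _ _ => zero_le_one) _)
  have hfin : FinR (pmf (Fc i)) := by
    refine ⟨VV i, fun c c' hc => ?_⟩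
    have h1 := (h4 i).1 c c' hc
    unfold pmf
    by_cases h2 : c ∈ Fc i
    · rw [Set.indicator_of_mem h2, Set.indicator_of_mem (h1.1 h2)]
      rfl
    · rw [Set.indicator_of_notMem h2, Set.indicator_of_notMem fun h3 => h2 (h1.2 h3)]
  have hne' : dl (U2c y p) (dl (U1c x t) (pmf (Fc i))) b ≠ 0 := by
    rwa [← VA12_comm h5 _ _ _ hfin hd12]
  obtain ⟨b₂, hb₂, hd₂⟩ := VA12_dl_ne' _ _ _ hne
  obtain ⟨b₁, hb₁, hd₁⟩ := VA12_dl_ne' _ _ _ hne'
  obtain ⟨a₁, ha₁⟩ := VA12_dl_ne _ _ _ hd₁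
  obtain ⟨a₂, ha₂⟩ := VA12_dl_ne _ _ _ hd₂
  -- dyadic numbers
  set A : ℕ := 2 ^ p with hA
  set B : ℕ := 2 ^ (p + m) with hB
  set Cc : ℕ := 2 ^ (p + m + s) with hCc
  set Dd : ℕ := 2 ^ (p + m + 3 * s) with hDd
  have hA1 : 16 ≤ A := by
    rw [hA]
    calc 16 = 2 ^ 4 := by norm_num
      _ ≤ 2 ^ p := Nat.pow_le_pow_right (by norm_num) (by omega)
  have hBA : 8192 * A ≤ B := by
    rw [hA, hB]
    calc 8192 * 2 ^ p = 2 ^ (p + 13) := by rw [pow_add]; ring
      _ ≤ 2 ^ (p + m) := Nat.pow_le_pow_right (by norm_num) (by omega)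
  have hCB : 16 * B ≤ Cc := by
    rw [hCc, hB]
    calc 16 * 2 ^ (p + m) = 2 ^ (p + m + 4) := by rw [pow_add _ (p + m) 4]; ring
      _ ≤ 2 ^ (p + m + s) := Nat.pow_le_pow_right (by norm_num) (by omega)
  have hDC : 16 * Cc ≤ Dd := by
    rw [hCc, hDd]
    calc 16 * 2 ^ (p + m + s) = 2 ^ (p + m + s + 4) := by rw [pow_add _ (p + m + s) 4]; ring
      _ ≤ 2 ^ (p + m + 3 * s) := Nat.pow_le_pow_right (by norm_num) (by omega)
  have hp1 : 2 ^ (p + 1) = 2 * A := by rw [hA, pow_succ]; ring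
  have hp2 : 2 ^ (p + 2) = 4 * A := by rw [hA, pow_add]; ring
  have hp3 : 2 ^ (p + 3) = 8 * A := by rw [hA, pow_add]; ring
  have htA : 2 ^ t ≤ A := by
    rw [hA]
    exact Nat.pow_le_pow_right (by norm_num) (by omega)
  have hbr1 : ∀ (z v : V), sd z (br v) ≤ sd z v + 1 := by
    intro z v
    have h1 := sd_triangle z v (br v)
    have h2 := sd_br_le v
    omega
  have hbr2 : ∀ (z v : V), sd z v ≤ sd z (br v) + 1 := by
    intro z v
    have h1 := sd_triangle z (br v) v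
    have h2 := sd_br_le v
    rw [sd_comm v] at h2
    omega
  have hxy1 : ∀ v : V, Cc ≤ sd x v + sd y v := by
    intro v
    have h1 := sd_triangle x v y
    rw [sd_comm v y] at h1
    omega
  have hxy2 : ∀ v : V, sd x v ≤ Cc + sd y v := by
    intro v
    have h1 := sd_triangle x y v
    omega
  have hxy3 : ∀ v : V, sd y v ≤ Cc + sd x v := by
    intro v
    have h1 := sd_triangle y x v
    rw [sd_comm y x] at h1
    omega
  -- four arms around x for b₁
  have hx4 : b₁ ∈ F4 x (t + 1) N := by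
    by_contra hc
    have h1 := h15 i t N x b₁ a₁ hGt.1 (by omega) hG.sub
    rw [Set.indicator_of_notMem hc, mul_zero] at h1
    have h2 : pmf (Fc i) b₁ - pmf (Fc i) (mx {v | sd x v ≤ 2 ^ t} b₁ a₁) = 0 :=
      pow_eq_zero_iff (two_ne_zero) |>.1 (le_antisymm h1 (sq_nonneg _))
    exact ha₁ (sub_eq_zero.1 h2).symm
  -- four arms around y for b₂
  have hy4 : b₂ ∈ F4 y (p + 3) (N - 1) := by
    by_contra hc
    have hsub : box y (2 ^ (N - 1)) ⊆ rect 1 (2 * 2 ^ i) 0 (TP.hh (2 ^ i)) := by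
      intro v hv
      apply hG.sub
      have h1 : sd y v ≤ 2 ^ (N - 1) := hv
      have h2 : (2 : ℕ) ^ N = 2 * 2 ^ (N - 1) := by
        rw [← pow_succ']
        congr 1
        omega
      have h3 : Cc ≤ 2 ^ (N - 1) := Nat.pow_le_pow_right (by norm_num) (by omega)
      have h4 := hxy2 v
      show sd x v ≤ 2 ^ N
      omega
    have h1 := h15 i (p + 2) (N - 1) y b₂ (mx (U2c y p) b₂ a₂) (by omega) (by omega) hsub
    rw [Set.indicator_of_notMem hc, mul_zero] at h1
    have h2 : pmf (Fc i) b₂ - pmf (Fc i) (mx {v | sd y v ≤ 2 ^ (p + 2)} b₂ (mx (U2c y p) b₂ a₂)) = 0 :=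
      pow_eq_zero_iff (two_ne_zero) |>.1 (le_antisymm h1 (sq_nonneg _))
    have h3 : mx {v | sd y v ≤ 2 ^ (p + 2)} b₂ (mx (U2c y p) b₂ a₂) = mx (U2c y p) b₂ a₂ := by
      funext v
      by_cases hv : v ∈ {v | sd y v ≤ 2 ^ (p + 2)}
      · unfold mx
        rw [if_pos hv]
      · rw [VA12_mx_off _ _ _ _ hv, VA12_mx_off]
        intro hv'
        have h5 : sd y v < 2 ^ (p + 2) := hv'
        exact hv h5.le
    rw [h3] at h2
    exact ha₂ (sub_eq_zero.1 h2).symm
  have hmono := hLQ.2.2.2.1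
  have hmem : b ∈ EW x y p m s ∩ EO x N t p m s := by
    refine ⟨⟨?_, ?_, ?_⟩, ⟨?_, ?_⟩⟩
    · refine VA12_restrict hLQ x (p + 3) (p + m) b₁ b (U2c y p)
        (hmono x _ _ _ _ (by omega) (by omega) (by omega) hx4) hb₁ fun v hv1 hv2 hv => ?_
      have h1 : sd y (br v) < 2 ^ (p + 2) := hv
      have h2 := hbr2 y v
      have h3 := hxy1 v
      omega
    · refine VA12_restrict hLQ y (p + 3) (p + m) b₂ b (U1c x t)
        (hmono y _ _ _ _ le_rfl (by omega) (by omega) hy4) hb₂ fun v hv1 hv2 hv => ?_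
      have h1 : sd x (br v) ≤ 2 ^ t := hv
      have h2 := hbr2 x v
      have h3 := hxy1 v
      omega
    · refine VA12_restrict hLQ x (p + m + 3 * s) (p + m + 3 * s + m - 3) b₁ b (U2c y p)
        (hmono x _ _ _ _ (by omega) (by omega) (by omega) hx4) hb₁ fun v hv1 hv2 hv => ?_
      have h1 : sd y (br v) < 2 ^ (p + 2) := hv
      have h2 := hbr2 y v
      have h3 := hxy2 v
      omega
    · refine VA12_restrict hLQ x (t + 1) (p + 1) b₁ b (U2c y p)
        (hmono x _ _ _ _ le_rfl (by omega) (by omega) hx4) hb₁ fun v hv1 hv2 hv => ?_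
      have h1 : sd y (br v) < 2 ^ (p + 2) := hv
      have h2 := hbr2 y v
      have h3 := hxy1 v
      omega
    · refine VA12_restrict hLQ x (p + m + 3 * s + m - 1) N b₁ b (U2c y p)
        (hmono x _ _ _ _ (by omega) (by omega) le_rfl hx4) hb₁ fun v hv1 hv2 hv => ?_
      have h0 : Dd ≤ 2 ^ (p + m + 3 * s + m - 1) := Nat.pow_le_pow_right (by norm_num) (by omega)
      have h1 : sd y (br v) < 2 ^ (p + 2) := hv
      have h2 := hbr2 y v
      have h3 := hxy2 v
      omega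
  rw [Set.indicator_of_mem hmem]
  simpa using hD4

end TP
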